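import Pool.Agent.H57.LH.Targets2

/-!
# Local completions of the expansions
-/

set_option autoImplicit false

namespace Pool.Agent.H80.LH

open Pool.Agent.H68.BP Pool.Agent.H58.SF Pool.Agent.H53.GC Pool.Agent.H53.NR
open Pool.Agent.H57.AR (tp ty Ty)
open Pool.Agent.H44.KR (TpOn Rz LcN)
open Pool.Agent.H57.LH Function

section basic

variable {V W X Λ : Type} {ρ : Sig} {c b : ℕ}

/-- the structure `κ` is realized by `f` on `g` -/
def Rs (𝔹 : Str ρ V) (cs : Fin c → V) (T : Set V) (b : ℕ)
    (κ : (S : ExI ρ c b) → (ExA ρ c b S → W) → Prop) (g : Set W) (f : W → ExD T b) : Prop :=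
  (∀ x ∈ g, ∀ y ∈ g, f x = f y → x = y) ∧
    ∀ (S : ExI ρ c b) (z : ExA ρ c b S → W), (∀ i, z i ∈ g) →
      (ExR 𝔹 cs T b S (fun i => f (z i)) ↔ κ S z)

/-- the kind of an element -/
def knd {T : Set V} : ExD T b → Option (Fin b)
  | Sum.inl _ => none
  | Sum.inr p => some p.1

theorem knd_none {T : Set V} {v : ExD T b} (h : knd v = none) : ∃ t : T, v = Sum.inl t := by
  rcases v with t | p
  · exact ⟨t, rfl⟩
  · exact absurd h (by simp [knd])

theorem exR_inr_iff {𝔹 : Str ρ V} {cs : Fin c → V} {T : Set V} (β : Fin b)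
    (z : ExA ρ c b (Sum.inr β) → ExD T b) :
    ExR 𝔹 cs T b (Sum.inr β) z ↔ knd (z ()) = some β := by
  rw [exR_inr]
  constructor
  · rintro ⟨n, h⟩
    rw [h]; rfl
  · intro h
    rcases hz : z () with t | ⟨β', n⟩
    · rw [hz] at h; exact absurd h (by simp [knd])
    · rw [hz] at h
      have h2 : β' = β := Option.some.inj h
      exact ⟨n, by rw [h2]⟩

/-- the kind depends only on the structure -/
theorem knd_eq {𝔹 : Str ρ V} {cs : Fin c → V} {T : Set V}
    {κ : (S : ExI ρ c b) → (ExA ρ c b S → W) → Prop} {g g' : Set W} {f f' : W → ExD T b}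
    (h : Rs 𝔹 cs T b κ g f) (h' : Rs 𝔹 cs T b κ g' f') {x : W} (hx : x ∈ g) (hx' : x ∈ g') :
    knd (f x) = knd (f' x) := by
  apply Option.ext
  intro β
  have h1 := h.2 (Sum.inr β) (fun _ => x) (fun _ => hx)
  have h2 := h'.2 (Sum.inr β) (fun _ => x) (fun _ => hx')
  rw [exR_inr_iff] at h1 h2
  constructor
  · intro h3; exact h2.2 (h1.1 h3)
  · intro h3; exact h1.2 (h2.1 h3)

/-- the basic equivalence for mixed tuples -/
theorem mix_iff {𝔹 : Str ρ V} {cs : Fin c → V} {T : Set V}
    {κ : (S : ExI ρ c b) → (ExA ρ c b S → W) → Prop} {g : Set W} {f : W → ExD T b}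
    (h : Rs 𝔹 cs T b κ g f) (ι : X → W) (t : X → T) (l : Fin ρ.m)
    (z : Fin (ρ.ar l) → X ⊕ Fin c)
    (hz : ∀ i x, z i = Sum.inl x → ι x ∈ g ∧ f (ι x) = Sum.inl (t x))
    (i₀ : Fin (ρ.ar l)) (x₀ : X) (h0 : z i₀ = Sum.inl x₀) :
    κ (Sum.inl ⟨l, fil z⟩) (fun i => ι (pad z x₀ i)) ↔
      𝔹 l (fun i => Sum.elim (fun x => (t x : V)) cs (z i)) := by
  have hp : ∀ i, ι (pad z x₀ i) ∈ g ∧ f (ι (pad z x₀ i)) = Sum.inl (t (pad z x₀ i)) := by
    intro i
    rcases hi : z i with x | j
    · rw [pad_inl hi]; exact hz i x hi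
    · rw [pad_inr hi]; exact hz i₀ x₀ h0
  have h1 := h.2 (Sum.inl ⟨l, fil z⟩) (fun i => ι (pad z x₀ i)) (fun i => (hp i).1)
  rw [← h1]
  have hw0 : (fun i => Sum.map t id (z i)) i₀ = Sum.inl (t x₀) := by
    show Sum.map t id (z i₀) = Sum.inl (t x₀)
    rw [h0]; rfl
  have h2 := exR_mix (𝔹 := 𝔹) (cs := cs) (T := T) (b := b) l (fun i => Sum.map t id (z i)) i₀
    (t x₀) hw0
  have e1 : fil (fun i => Sum.map t id (z i)) = fil z := by
    funext i
    rcases hi : z i with x | j
    · rw [fil_inl hi]; exact fil_inl (t := t x) (by rw [hi]; rfl)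
    · rw [fil_inr hi]; exact fil_inr (j := j) (by rw [hi]; rfl)
  have e2 : (fun i => (Sum.inl (pad (fun i => Sum.map t id (z i)) (t x₀) i) : ExD T b)) =
      fun i => f (ι (pad z x₀ i)) := by
    funext i
    rw [(hp i).2]
    rcases hi : z i with x | j
    · rw [pad_inl hi]
      exact congrArg Sum.inl (pad_inl (t := t x) (by rw [hi]; rfl) _)
    · rw [pad_inr hi]
      exact congrArg Sum.inl (pad_inr (j := j) (by rw [hi]; rfl) _)
  have e3 : (fun i => Sum.elim (fun t : T => (t : V)) cs ((fun i => Sum.map t id (z i)) i)) =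
      fun i => Sum.elim (fun x => (t x : V)) cs (z i) := by
    funext i
    rcases hi : z i with x | j
    · simp [hi]
    · simp [hi]
  rw [e1, e2, e3] at h2
  exact h2

/-- the labels of the new instance -/
def S2 (𝔹 : Str ρ V) (cs : Fin c → V)
    (κ : Λ → (S : ExI ρ c b) → (ExA ρ c b S → W) → Prop) (ι : X → W) (o : Option Λ) :
    Str ρ (X ⊕ Fin c) := fun l z =>
  (∃ a x₀ i₀, o = some a ∧ z i₀ = Sum.inl x₀ ∧
    κ a (Sum.inl ⟨l, fil z⟩) (fun i => ι (pad z x₀ i))) ∨
  ∃ j : Fin (ρ.ar l) → Fin c, (∀ i, z i = Sum.inr (j i)) ∧ 𝔹 l (fun i => cs (j i))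

theorem s2_inr {𝔹 : Str ρ V} {cs : Fin c → V}
    {κ : Λ → (S : ExI ρ c b) → (ExA ρ c b S → W) → Prop} {ι : X → W} (o : Option Λ)
    (l : Fin ρ.m) (z : Fin (ρ.ar l) → X ⊕ Fin c) (j : Fin (ρ.ar l) → Fin c)
    (hz : ∀ i, z i = Sum.inr (j i)) : S2 𝔹 cs κ ι o l z ↔ 𝔹 l (fun i => cs (j i)) := by
  constructor
  · rintro (⟨a, x₀, i₀, -, h, -⟩ | ⟨j', h1, h2⟩)
    · rw [hz i₀] at h; exact absurd h (by simp)
    · have : j' = j := by
        funext i
        exact Sum.inr.inj ((h1 i).symm.trans (hz i))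
      rw [this] at h2; exact h2
  · intro h
    exact Or.inr ⟨j, hz, h⟩

theorem s2_inl {𝔹 : Str ρ V} {cs : Fin c → V} {T : Set V}
    {κ : Λ → (S : ExI ρ c b) → (ExA ρ c b S → W) → Prop} {g : Set W} {f : W → ExD T b} {a : Λ}
    (h : Rs 𝔹 cs T b (κ a) g f) (ι : X → W) (t : X → T) (l : Fin ρ.m)
    (z : Fin (ρ.ar l) → X ⊕ Fin c)
    (hz : ∀ i x, z i = Sum.inl x → ι x ∈ g ∧ f (ι x) = Sum.inl (t x)) :
    S2 𝔹 cs κ ι (some a) l z ↔ 𝔹 l (fun i => Sum.elim (fun x => (t x : V)) cs (z i)) := by
  by_cases hj : ∃ j : Fin (ρ.ar l) → Fin c, ∀ i, z i = Sum.inr (j i)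
  · obtain ⟨j, hj⟩ := hj
    rw [s2_inr _ l z j hj]
    have e : (fun i => Sum.elim (fun x => (t x : V)) cs (z i)) = fun i => cs (j i) := by
      funext i; rw [hj i]; rfl
    rw [e]
  · have hx : ∃ i₀ x₀, z i₀ = Sum.inl x₀ := by
      by_contra hc
      apply hj
      have : ∀ i, ∃ j, z i = Sum.inr j := by
        intro i
        rcases hi : z i with x | j
        · exact absurd ⟨i, x, hi⟩ hc
        · exact ⟨j, rfl⟩
      choose j hj' using this
      exact ⟨j, hj'⟩
    obtain ⟨i₀, x₀, h0⟩ := hx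
    constructor
    · rintro (⟨a', x₁, i₁, h1, h2, h3⟩ | ⟨j, h1, -⟩)
      · obtain rfl : a = a' := Option.some.inj h1
        exact (mix_iff h ι t l z hz i₁ x₁ h2).1 h3
      · exact absurd ⟨j, h1⟩ hj
    · intro h3
      exact Or.inl ⟨a, x₀, i₀, rfl, h0, (mix_iff h ι t l z hz i₀ x₀ h0).2 h3⟩

end basic

theorem core {V W Λ : Type} [Finite W] {ρ : Sig} {c : ℕ} (𝔹 : Str ρ V) (cs : Fin c → V)
    (T : Set V) (b N : ℕ) (hcs : Injective cs) (hH : Hmg 𝔹) (hT : InvT 𝔹 cs T) (hN : LcN 𝔹 N)
    (s : Λ → Set W) (κ : Λ → (S : ExI ρ c b) → (ExA ρ c b S → W) → Prop)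
    (hloc : ∀ U : Finset W, U.card ≤ max N (max ρ.width 1) →
      ∃ f : W → ExD T b, ∀ a, Rs 𝔹 cs T b (κ a) {x | x ∈ s a ∧ x ∈ U} f) :
    ∃ f : W → ExD T b, ∀ a, Rs 𝔹 cs T b (κ a) (s a) f := by
  classical
  have h1 : ∀ x : W, ∃ f : W → ExD T b, ∀ a,
      Rs 𝔹 cs T b (κ a) {y | y ∈ s a ∧ y ∈ ({x} : Finset W)} f := fun x =>
    hloc {x} (by rw [Finset.card_singleton]; exact le_max_of_le_right (le_max_right _ _))
  choose F hF using h1
  let X : Type := {x : W // knd (F x x) = none}
  have hte : ∀ x : X, ∃ t : T, F x.1 x.1 = Sum.inl t := fun x => knd_none x.2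
  choose te hte using hte
  have hmem : ∀ (a : Λ) (x : W), x ∈ s a → x ∈ {y | y ∈ s a ∧ y ∈ ({x} : Finset W)} := by
    intro a x hx
    exact ⟨hx, Finset.mem_singleton_self x⟩
  let tf : (W → ExD T b) → X → T := fun f x => Sum.elim id (fun _ => te x) (f x.1)
  have htf : ∀ (f : W → ExD T b) (x : X), knd (f x.1) = none → f x.1 = Sum.inl (tf f x) := by
    intro f x h
    obtain ⟨t, ht⟩ := knd_none h
    show f x.1 = Sum.inl (Sum.elim id (fun _ => te x) (f x.1))
    rw [ht]; rfl
  let s2 : Option Λ → Set (X ⊕ Fin c) := fun o => {w | ∀ x, w = Sum.inl x →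
    ∃ a, o = some a ∧ x.1 ∈ s a}
  let ι : X → W := Subtype.val
  -- the new instance
  obtain ⟨f2, hf2⟩ := hN (X ⊕ Fin c) (Option Λ) s2 (S2 𝔹 cs κ ι) (by
    intro U2 hU2
    let U : Finset W := U2.toLeft.map ⟨Subtype.val, Subtype.val_injective⟩
    have hU : U.card ≤ max N (max ρ.width 1) := by
      rw [Finset.card_map]
      exact le_max_of_le_left (le_trans Finset.card_toLeft_le hU2)
    obtain ⟨f, hf⟩ := hloc U hU
    have hmU : ∀ x : X, Sum.inl x ∈ U2 → x.1 ∈ U := by
      intro x hx
      rw [Finset.mem_map]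
      exact ⟨x, Finset.mem_toLeft.2 hx, rfl⟩
    have hft : ∀ (a : Λ) (x : X), x.1 ∈ s a → Sum.inl x ∈ U2 →
        x.1 ∈ {y | y ∈ s a ∧ y ∈ U} ∧ f x.1 = Sum.inl (tf f x) := by
      intro a x hx hx2
      have hm : x.1 ∈ {y | y ∈ s a ∧ y ∈ U} := ⟨hx, hmU x hx2⟩
      refine ⟨hm, htf f x ?_⟩
      rw [knd_eq (hf a) (hF x.1 a) hm (hmem a x.1 hx)]
      exact x.2
    refine ⟨Sum.elim (fun x => (tf f x : V)) cs, fun o => ⟨?_, ?_⟩⟩
    · rintro w ⟨hw, hwU⟩ w' ⟨hw', hwU'⟩ heq
      rcases w with x | j <;> rcases w' with x' | j'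
      · obtain ⟨a, rfl, ha⟩ := hw x rfl
        obtain ⟨a', ha1, ha'⟩ := hw' x' rfl
        obtain rfl := Option.some.inj ha1
        have e1 : tf f x = tf f x' := Subtype.ext heq
        have g1 := hft a x ha hwU
        have g2 := hft a x' ha' hwU'
        have := (hf a).1 x.1 g1.1 x'.1 g2.1 (by rw [g1.2, g2.2, e1])
        exact congrArg Sum.inl (Subtype.ext this)
      · exfalso
        apply hT.1 j'
        have e1 : (tf f x : V) = cs j' := heq
        rw [← e1]; exact (tf f x).2
      · exfalso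
        apply hT.1 j
        have e1 : cs j = (tf f x' : V) := heq
        rw [e1]; exact (tf f x').2
      · exact congrArg Sum.inr (hcs heq)
    · intro l z hz
      show 𝔹 l (fun i => Sum.elim (fun x => (tf f x : V)) cs (z i)) ↔ S2 𝔹 cs κ ι o l z
      rcases o with _ | a
      · have : ∀ i, ∃ j, z i = Sum.inr j := by
          intro i
          rcases hi : z i with x | j
          · obtain ⟨a, ha, -⟩ := (hz i).1 x hi
            exact absurd ha (by simp)
          · exact ⟨j, rfl⟩
        choose j hj using this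
        rw [s2_inr _ l z j hj]
        have e : (fun i => Sum.elim (fun x => (tf f x : V)) cs (z i)) = fun i => cs (j i) := by
          funext i; rw [hj i]; rfl
        rw [e]
      · refine (s2_inl (hf a) ι (tf f) l z ?_).symm
        intro i x hi
        obtain ⟨a', ha1, ha'⟩ := (hz i).1 x hi
        obtain rfl := Option.some.inj ha1
        refine hft a x ha' ?_
        rw [← hi]; exact (hz i).2)
  -- move the constants
  obtain ⟨f3, hf3, hf3c⟩ := hH (X ⊕ Fin c) {w | ∃ j, w = Sum.inr j} f2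
    (Sum.elim (fun x => (te x : V)) cs) (by
      constructor
      · rintro w ⟨j, rfl⟩ w' ⟨j', rfl⟩
        constructor
        · intro h
          have := (hf2 none).1 (Sum.inr j) (by intro x hx; exact absurd hx (by simp))
            (Sum.inr j') (by intro x hx; exact absurd hx (by simp)) h
          have h2 : (Sum.inr j : X ⊕ Fin c) = Sum.inr j' := this
          rw [h2]
        · intro h
          have h2 : j = j' := hcs h
          rw [h2]
      · intro l z hz
        choose j hj using hz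
        have h2 := (hf2 none).2 l z (by
          intro i x hx; rw [hj i] at hx; exact absurd hx (by simp))
        rw [h2]
        show S2 𝔹 cs κ ι none l z ↔ _
        rw [s2_inr _ l z j hj]
        have e : (fun i => Sum.elim (fun x => (te x : V)) cs (z i)) = fun i => cs (j i) := by
          funext i; rw [hj i]; rfl
        rw [e])
  have hc3 : ∀ j, f3 (Sum.inr j) = cs j := fun j => hf3c (Sum.inr j) ⟨j, rfl⟩
  have hR3 : ∀ o, (∀ w ∈ s2 o, ∀ w' ∈ s2 o, f3 w = f3 w' → w = w') ∧
      ∀ (l : Fin ρ.m) (z : Fin (ρ.ar l) → X ⊕ Fin c), (∀ i, z i ∈ s2 o) →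
        (𝔹 l (fun i => f3 (z i)) ↔ S2 𝔹 cs κ ι o l z) := by
    intro o
    constructor
    · intro w hw w' hw' h
      have h2 : f2 w = f2 w' :=
        (iff_of_eq (congrFun (congrFun (congrArg Prod.fst hf3) w) w')).1 h
      exact (hf2 o).1 w hw w' hw' h2
    · intro l z hz
      have h2 : 𝔹 l (fun i => f3 (z i)) ↔ 𝔹 l (fun i => f2 (z i)) :=
        iff_of_eq (congrFun (congrFun (congrArg Prod.snd hf3) l) z)
      rw [h2]
      exact (hf2 o).2 l z hz
  have hin : ∀ (a : Λ) (x : X), x.1 ∈ s a → (Sum.inl x : X ⊕ Fin c) ∈ s2 (some a) := by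
    intro a x hx x' hx'
    obtain rfl : x = x' := Sum.inl.inj hx'
    exact ⟨a, rfl, hx⟩
  have hir : ∀ (o : Option Λ) (j : Fin c), (Sum.inr j : X ⊕ Fin c) ∈ s2 o := by
    intro o j x' hx'
    exact absurd hx' (by simp)
  -- the values are in `T`
  have hT3 : ∀ (a : Λ) (x : X), x.1 ∈ s a → f3 (Sum.inl x) ∈ T := by
    intro a x hx
    refine hT.2 (te x : V) _ ?_ (te x).2
    have key : ∀ w : Unit ⊕ Fin c, Sum.elim (fun _ : Unit => f3 (Sum.inl x)) cs w =
        f3 (Sum.map (fun _ => x) id w) := by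
      rintro (u | j)
      · rfl
      · exact (hc3 j).symm
    refine Prod.ext ?_ ?_
    · funext w w'
      refine propext ?_
      rcases w with u | j <;> rcases w' with u' | j'
      · exact ⟨fun _ => rfl, fun _ => rfl⟩
      · refine ⟨fun h => ?_, fun h => ?_⟩
        · exfalso
          have e1 : (te x : V) = cs j' := h
          exact hT.1 j' (e1 ▸ (te x).2)
        · exfalso
          have e1 : f3 (Sum.inl x) = cs j' := h
          rw [← hc3 j'] at e1
          have := (hR3 (some a)).1 _ (hin a x hx) _ (hir _ j') e1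
          exact absurd this (by simp)
      · refine ⟨fun h => ?_, fun h => ?_⟩
        · exfalso
          have e1 : cs j = (te x : V) := h
          exact hT.1 j (e1.symm ▸ (te x).2)
        · exfalso
          have e1 : cs j = f3 (Sum.inl x) := h
          rw [← hc3 j] at e1
          have := (hR3 (some a)).1 _ (hir _ j) _ (hin a x hx) e1
          exact absurd this (by simp)
      · exact Iff.rfl
    · funext l z
      refine propext ?_
      show 𝔹 l (fun i => Sum.elim (fun _ : Unit => (te x : V)) cs (z i)) ↔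
        𝔹 l (fun i => Sum.elim (fun _ : Unit => f3 (Sum.inl x)) cs (z i))
      have e1 : (fun i => Sum.elim (fun _ : Unit => f3 (Sum.inl x)) cs (z i)) =
          fun i => f3 ((fun i => Sum.map (fun _ => x) id (z i)) i) := by
        funext i; exact key (z i)
      rw [e1, (hR3 (some a)).2 l (fun i => Sum.map (fun _ => x) id (z i)) (by
        intro i
        show Sum.map (fun _ => x) id (z i) ∈ s2 (some a)
        rcases z i with u | j
        · exact hin a x hx
        · exact hir _ j)]
      rw [s2_inl (hF x.1 a) ι (fun x' => te x') l (fun i => Sum.map (fun _ => x) id (z i)) (by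
        intro i x' hx'
        have hx'' : Sum.map (fun _ => x) id (z i) = Sum.inl x' := hx'
        rcases hi : z i with u | j
        · rw [hi] at hx''
          obtain rfl : x = x' := Sum.inl.inj hx''
          exact ⟨hmem a x.1 hx, hte x⟩
        · rw [hi] at hx''
          exact absurd hx'' (by simp))]
      have e2 : (fun i => Sum.elim (fun x' => (te x' : V)) cs
          ((fun i => Sum.map (fun _ => x) id (z i)) i)) =
          fun i => Sum.elim (fun _ : Unit => (te x : V)) cs (z i) := by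
        funext i
        rcases hi : z i with u | j
        · simp [hi]
        · simp [hi]
      rw [e2]
  -- the map
  obtain ⟨idx, hidx⟩ : ∃ idx : W → ℕ, Injective idx := by
    obtain ⟨n, ⟨e⟩⟩ := Finite.exists_equiv_fin W
    exact ⟨fun x => (e x : ℕ), fun x y h => e.injective (Fin.ext h)⟩
  let f : W → ExD T b := fun x =>
    if hx : knd (F x x) = none then
      (if h : f3 (Sum.inl ⟨x, hx⟩) ∈ T then Sum.inl ⟨_, h⟩ else F x x)
    else Sum.inr (((knd (F x x)).get (Option.ne_none_iff_isSome.1 hx)), idx x)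
  have hfT : ∀ (a : Λ) (x : X) (hx : x.1 ∈ s a),
      f x.1 = Sum.inl ⟨f3 (Sum.inl x), hT3 a x hx⟩ := by
    intro a x hx
    show (if hx : knd (F x.1 x.1) = none then
      (if h : f3 (Sum.inl ⟨x.1, hx⟩) ∈ T then Sum.inl ⟨_, h⟩ else F x.1 x.1)
    else Sum.inr (((knd (F x.1 x.1)).get (Option.ne_none_iff_isSome.1 hx)), idx x.1)) = _
    rw [dif_pos x.2, dif_pos (hT3 a x hx)]
  have hfk : ∀ (a : Λ) (x : W), x ∈ s a → knd (f x) = knd (F x x) := by
    intro a x hx
    by_cases h : knd (F x x) = none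
    · rw [hfT a ⟨x, h⟩ hx, h]; rfl
    · show knd (if hx : knd (F x x) = none then
        (if h : f3 (Sum.inl ⟨x, hx⟩) ∈ T then Sum.inl ⟨_, h⟩ else F x x)
      else Sum.inr (((knd (F x x)).get (Option.ne_none_iff_isSome.1 hx)), idx x)) = _
      rw [dif_neg h]
      show some ((knd (F x x)).get _) = _
      rw [Option.some_get]
  refine ⟨f, fun a => ⟨?_, ?_⟩⟩
  · intro x hx y hy hxy
    have hk : knd (F x x) = knd (F y y) := by rw [← hfk a x hx, ← hfk a y hy, hxy]
    by_cases h : knd (F x x) = none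
    · have h' : knd (F y y) = none := by rw [← hk]; exact h
      have e1 := hfT a ⟨x, h⟩ hx
      have e2 := hfT a ⟨y, h'⟩ hy
      have e3 : f3 (Sum.inl ⟨x, h⟩) = f3 (Sum.inl ⟨y, h'⟩) := by
        have : (Sum.inl ⟨f3 (Sum.inl ⟨x, h⟩), hT3 a ⟨x, h⟩ hx⟩ : ExD T b) =
            Sum.inl ⟨f3 (Sum.inl ⟨y, h'⟩), hT3 a ⟨y, h'⟩ hy⟩ := by
          rw [← e1, ← e2]; exact hxy
        exact congrArg Subtype.val (Sum.inl.inj this)
      have e4 := (hR3 (some a)).1 _ (hin a ⟨x, h⟩ hx) _ (hin a ⟨y, h'⟩ hy) e3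
      exact congrArg Subtype.val (Sum.inl.inj e4)
    · have h' : knd (F y y) ≠ none := by rw [← hk]; exact h
      have e1 : (if hx : knd (F x x) = none then
        (if h : f3 (Sum.inl ⟨x, hx⟩) ∈ T then Sum.inl ⟨_, h⟩ else F x x)
      else Sum.inr (((knd (F x x)).get (Option.ne_none_iff_isSome.1 hx)), idx x)) =
        (if hx : knd (F y y) = none then
        (if h : f3 (Sum.inl ⟨y, hx⟩) ∈ T then Sum.inl ⟨_, h⟩ else F y y)
      else Sum.inr (((knd (F y y)).get (Option.ne_none_iff_isSome.1 hx)), idx y)) := hxy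
      rw [dif_neg h, dif_neg h'] at e1
      exact hidx (congrArg Prod.snd (Sum.inr.inj e1))
  · intro S z hz
    rcases S with ⟨l, g⟩ | β
    · -- relations
      let U : Finset W := Finset.univ.image (fun i : Fin (ρ.ar l) => z i)
      have hU : U.card ≤ max N (max ρ.width 1) := by
        refine le_max_of_le_right (le_max_of_le_left ?_)
        refine le_trans Finset.card_image_le ?_
        rw [Finset.card_univ, Fintype.card_fin]
        exact Finset.le_sup (f := ρ.ar) (Finset.mem_univ l)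
      obtain ⟨fU, hfU⟩ := hloc U hU
      have hzU : ∀ i : Fin (ρ.ar l), z i ∈ {x | x ∈ s a ∧ x ∈ U} := fun i =>
        ⟨hz i, Finset.mem_image_of_mem _ (Finset.mem_univ i)⟩
      have hkU : ∀ i : Fin (ρ.ar l), knd (fU (z i)) = knd (F (z i) (z i)) := fun i =>
        knd_eq (hfU a) (hF (z i) a) (hzU i) (hmem a (z i) (hz i))
      rw [← (hfU a).2 (Sum.inl ⟨l, g⟩) z hzU]
      by_cases hk : ∀ i : Fin (ρ.ar l), knd (F (z i) (z i)) = none
      · -- all entries are elements of `T`
        let zT : Fin (ρ.ar l) → X := fun i => ⟨z i, hk i⟩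
        let y : Fin (ρ.ar l) → T := fun i => ⟨f3 (Sum.inl (zT i)), hT3 a (zT i) (hz i)⟩
        let yU : Fin (ρ.ar l) → T := fun i => tf fU (zT i)
        have hy : ∀ i, f (z i) = Sum.inl (y i) := fun i => hfT a (zT i) (hz i)
        have hyU : ∀ i, fU (z i) = Sum.inl (yU i) := fun i =>
          htf fU (zT i) (by
            show knd (fU (z i)) = none
            rw [hkU i]; exact hk i)
        have e1 : (fun i : Fin (ρ.ar l) => f (z i)) = fun i => Sum.inl (y i) := funext hy
        have e2 : (fun i : Fin (ρ.ar l) => fU (z i)) = fun i => Sum.inl (yU i) := funext hyU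
        have hl : ExR 𝔹 cs T b (Sum.inl ⟨l, g⟩) (fun i => f (z i)) ↔
            ExR 𝔹 cs T b (Sum.inl ⟨l, g⟩) (fun i => Sum.inl (y i)) :=
          iff_of_eq (congrArg _ e1)
        have hr : ExR 𝔹 cs T b (Sum.inl ⟨l, g⟩) (fun i => fU (z i)) ↔
            ExR 𝔹 cs T b (Sum.inl ⟨l, g⟩) (fun i => Sum.inl (yU i)) :=
          iff_of_eq (congrArg _ e2)
        rw [hl, hr, exR_inl, exR_inl]
        have hyy : ∀ i i', y i = y i' ↔ z i = z i' := by
          intro i i'
          constructor
          · intro h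
            have h2 : f3 (Sum.inl (zT i)) = f3 (Sum.inl (zT i')) := congrArg Subtype.val h
            have h3 := (hR3 (some a)).1 _ (hin a (zT i) (hz i)) _ (hin a (zT i') (hz i')) h2
            exact congrArg Subtype.val (Sum.inl.inj h3)
          · intro h
            have : zT i = zT i' := Subtype.ext h
            show (⟨f3 (Sum.inl (zT i)), _⟩ : T) = ⟨f3 (Sum.inl (zT i')), _⟩
            apply Subtype.ext
            show f3 (Sum.inl (zT i)) = f3 (Sum.inl (zT i'))
            rw [this]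
        have hyyU : ∀ i i', yU i = yU i' ↔ z i = z i' := by
          intro i i'
          constructor
          · intro h
            exact (hfU a).1 _ (hzU i) _ (hzU i') (by rw [hyU i, hyU i', h])
          · intro h
            have : zT i = zT i' := Subtype.ext h
            show tf fU (zT i) = tf fU (zT i')
            rw [this]
        have hfirst : (∃ i₀, g i₀ = none ∧ ∀ i, g i ≠ none → y i = y i₀) ↔
            ∃ i₀, g i₀ = none ∧ ∀ i, g i ≠ none → yU i = yU i₀ := by
          refine exists_congr fun i₀ => and_congr Iff.rfl (forall_congr' fun i => ?_)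
          rw [hyy, hyyU]
        rw [hfirst]
        refine and_congr_right fun _ => ?_
        -- the mixed tuple
        let m : Fin (ρ.ar l) → X ⊕ Fin c := fun i => (g i).elim (Sum.inl (zT i)) Sum.inr
        have hm1 : (fun i => (g i).elim (y i : V) cs) = fun i => f3 (m i) := by
          funext i
          show (g i).elim (y i : V) cs = f3 ((g i).elim (Sum.inl (zT i)) Sum.inr)
          rcases g i with _ | j
          · rfl
          · exact (hc3 j).symm
        have hm2 : (fun i => (g i).elim (yU i : V) cs) =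
            fun i => Sum.elim (fun x => (tf fU x : V)) cs (m i) := by
          funext i
          show (g i).elim (yU i : V) cs =
            Sum.elim (fun x => (tf fU x : V)) cs ((g i).elim (Sum.inl (zT i)) Sum.inr)
          rcases g i with _ | j
          · rfl
          · rfl
        have hmi : ∀ i x, m i = Sum.inl x → x = zT i := by
          intro i x hx
          have hx' : (g i).elim (Sum.inl (zT i)) Sum.inr = (Sum.inl x : X ⊕ Fin c) := hx
          rcases hg : g i with _ | j
          · rw [hg] at hx'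
            exact (Sum.inl.inj hx').symm
          · rw [hg] at hx'
            exact absurd hx' (by simp)
        rw [hm1, hm2, (hR3 (some a)).2 l m (by
          intro i x hx
          rw [hmi i x hx]
          exact ⟨a, rfl, hz i⟩)]
        refine s2_inl (hfU a) ι (tf fU) l m ?_
        intro i x hx
        rw [hmi i x hx]
        exact ⟨hzU i, hyU i⟩
      · -- a blind entry
        push Not at hk
        obtain ⟨i, hi⟩ := hk
        constructor
        · intro h
          exfalso
          obtain ⟨y, hy⟩ := exR_inl_elem h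
          apply hi
          rw [← hfk a (z i) (hz i)]
          have : f (z i) = Sum.inl (y i) := congrFun hy i
          rw [this]; rfl
        · intro h
          exfalso
          obtain ⟨y, hy⟩ := exR_inl_elem h
          apply hi
          rw [← hkU i]
          have : fU (z i) = Sum.inl (y i) := congrFun hy i
          rw [this]; rfl
    · -- marks
      have hzu : z = fun _ => z () := funext fun u => rfl
      have h2 := (hF (z ()) a).2 (Sum.inr β) z (by
        intro i
        exact hmem a (z ()) (hz ()))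
      rw [← h2, exR_inr_iff, exR_inr_iff]
      show knd (f (z ())) = some β ↔ knd (F (z ()) (z ())) = some β
      rw [hfk a (z ()) (hz ())]

theorem pf_EXL : T_EXL := by
  intro V ρ 𝔹 c cs T b N _ hcs hH hT _ hN
  refine ⟨max N (max ρ.width 1), ?_⟩
  intro W Λ _ s S hloc
  have hS : ∀ a, ∃ κ : (S : ExI ρ c b) → (ExA ρ c b S → W) → Prop, S a = strOn κ := fun a =>
    Pool.Agent.H50.PT.exists_strOn (S a)
  choose κ hκ using hS
  obtain ⟨f, hf⟩ := core 𝔹 cs T b N hcs hH hT hN s κ (by
    intro U hU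
    obtain ⟨f, hf⟩ := hloc U hU
    refine ⟨f, fun a => ?_⟩
    have h1 := hf a
    rw [hκ a] at h1
    exact rz_strOn.1 h1)
  refine ⟨f, fun a => ?_⟩
  rw [hκ a]
  exact rz_strOn.2 (hf a)

end Pool.Agent.H80.LH
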