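import Pool.Agent.H57.LH.Targets2
import Pool.Agent.H50.AR.SRT

/-!
# Cyclic actions on the types
-/

set_option autoImplicit false

namespace Pool.Agent.H80.LH

open Pool.Agent.H68.BP Pool.Agent.H58.SF Pool.Agent.H53.GC Pool.Agent.H53.NR
open Pool.Agent.H57.AR (tp ty Ty)
open Pool.Agent.H57.SO (Pal Col vt Sbn)
open Pool.Agent.H57.EQ (Cx T_CYF)
open Pool.Agent.H44.KR (HB Rlz Prm lr)
open Pool.Agent.H57.LH Function
open Pool.Agent.H50.SO (sbn_proj sbn_comp Fac RS fam_eq pat_ne inj01 inj10)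

section srl

variable {V : Type} {ρ σ : Sig} {𝔸 : Str σ V} {𝔹 : Str ρ V}

theorem perm_of (hP : Prm 𝔸 𝔹) (γ : SS 𝔹 → SS 𝔹)
    (hγ : Pool.Agent.H57.SO.Sb 𝔸 (c0 𝔹) γ) : Bijective γ := by
  classical
  let γ' : (Fin ρ.m → Prop) → (Fin ρ.m → Prop) := fun s =>
    if h : s ∈ Rlz 𝔹 then (γ ⟨s, h⟩).1 else s
  have h1 : Pool.Agent.H44.KR.Sb 𝔸 𝔹 γ' := by
    intro W _ G
    obtain ⟨ψ, h2, h3⟩ := hγ W G
    refine ⟨ψ, h2, fun w => ?_⟩
    have h4 := h3 w (vs 𝔹 (G w)) (c0_self 𝔹 (G w))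
    rw [c0_self] at h4
    have h5 : vs 𝔹 (ψ w) = γ (vs 𝔹 (G w)) := Sum.inl.inj h4
    have h6 : ty 𝔹 (G w) ∈ Rlz 𝔹 := ⟨G w, rfl⟩
    show ty 𝔹 (ψ w) = if h : ty 𝔹 (G w) ∈ Rlz 𝔹 then (γ ⟨ty 𝔹 (G w), h⟩).1 else ty 𝔹 (G w)
    rw [dif_pos h6]
    exact congrArg Subtype.val h5
  have h2 := hP γ' h1
  have h3 : Injective γ := by
    intro s s' h
    apply Subtype.ext
    apply h2 s.2 s'.2
    show (if h : s.1 ∈ Rlz 𝔹 then (γ ⟨s.1, h⟩).1 else s.1) =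
      if h : s'.1 ∈ Rlz 𝔹 then (γ ⟨s'.1, h⟩).1 else s'.1
    rw [dif_pos s.2, dif_pos s'.2]
    exact congrArg Subtype.val h
  exact Finite.injective_iff_bijective.1 h3

theorem sb_of {γ : SS 𝔹 → SS 𝔹}
    (h : Sbn (P0 𝔹) 𝔸 (c0 𝔹) (fun t : Unit → SS 𝔹 => γ (t ()))) :
    Pool.Agent.H57.SO.Sb 𝔸 (c0 𝔹) γ := by
  intro W _ G
  obtain ⟨ψ, h1, h2⟩ := h W (fun _ => G)
  refine ⟨ψ, h1, fun w s hs => ?_⟩
  have h3 := h2 w
  rw [vt_c0, vt_c0] at h3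
  rw [c0_self] at hs ⊢
  rw [h3, Sum.inl.inj hs]

theorem sbn_v {n : ℕ} {v : Fin 3 → ℕ → (Fin 2 → SS 𝔹) → SS 𝔹} {v6 : (Fin 6 → SS 𝔹) → SS 𝔹}
    {θ : SS 𝔹 → SS 𝔹} (hO : Ops 𝔸 𝔹 n v v6 θ) (r : Fin 3) (j : ℕ) (hj : j ≤ n) :
    Sbn (P0 𝔹) 𝔸 (c0 𝔹) (v r j) := by
  rcases j with _ | j
  · have h1 := sbn_comp hO.six (fun c => sbn_proj (P := P0 𝔹) (𝔸 := 𝔸) (c := c0 𝔹) (lr r c))
    have h2 : v r 0 = fun t => v6 (fun c => t (lr r c)) := funext (hO.zero r)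
    rw [h2]
    exact h1
  · obtain ⟨τ, h1, h2⟩ := hO.sw r j hj ⟨j % 2, Nat.mod_lt _ (by norm_num)⟩ rfl (fun _ => True)
    have h3 : τ = v r (j + 1) := funext fun t => (h2 t).1 trivial
    rw [← h3]
    exact h1

theorem no_fac {n : ℕ} {v : Fin 3 → ℕ → (Fin 2 → SS 𝔹) → SS 𝔹} {v6 : (Fin 6 → SS 𝔹) → SS 𝔹}
    {θ : SS 𝔹 → SS 𝔹} (hP : Prm 𝔸 𝔹) (hO : Ops 𝔸 𝔹 n v v6 θ) {U : Fin 2 → Set (SS 𝔹)}
    (hU : Fac (P0 𝔹) 𝔸 (c0 𝔹) U) : False := by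
  -- the action of the diagonal
  have hθ1 : Sbn (P0 𝔹) 𝔸 (c0 𝔹) (fun t : Unit → SS 𝔹 => θ (t ())) := by
    have h1 := sbn_comp (sbn_v hO 0 0 (Nat.zero_le n))
      (fun _ : Fin 2 => sbn_proj (P := P0 𝔹) (𝔸 := 𝔸) (c := c0 𝔹) ())
    have h2 : (fun t : Unit → SS 𝔹 => v 0 0 (fun _ => t ())) = fun t => θ (t ()) := by
      funext t
      exact hO.con 0 0 (Nat.zero_le n) (t ())
    rw [← h2]
    exact h1
  have hθ2 : Bijective θ := perm_of hP θ (sb_of hθ1)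
  let e : Equiv.Perm (SS 𝔹) := Equiv.ofBijective θ hθ2
  have hpow : ∀ m : ℕ, Sbn (P0 𝔹) 𝔸 (c0 𝔹) (fun t : Unit → SS 𝔹 => (e ^ m) (t ())) := by
    intro m
    induction m with
    | zero =>
      have h1 : (fun t : Unit → SS 𝔹 => (e ^ 0) (t ())) = fun t => t () := by
        funext t
        rw [pow_zero]; rfl
      rw [h1]
      exact sbn_proj ()
    | succ m ih =>
      have h1 : (fun t : Unit → SS 𝔹 => (e ^ (m + 1)) (t ())) =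
          fun t => (fun t : Unit → SS 𝔹 => (e ^ m) (t ()))
            (fun _ => (fun t : Unit → SS 𝔹 => θ (t ())) t) := by
        funext t
        rw [pow_succ]
        rfl
      rw [h1]
      exact sbn_comp ih (fun _ => hθ1)
  obtain ⟨k, hk⟩ : ∃ k : ℕ, ∀ s, (e ^ k) (θ s) = s := by
    have h1 : 0 < orderOf e := orderOf_pos e
    obtain ⟨k, hk⟩ : ∃ k, orderOf e = k + 1 := ⟨orderOf e - 1, by omega⟩
    refine ⟨k, fun s => ?_⟩
    have h2 := pow_orderOf_eq_one e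
    rw [hk, pow_succ] at h2
    exact congrArg (fun g : Equiv.Perm (SS 𝔹) => g s) h2
  have hth : ∀ (m : ℕ) (τ : (Fin m → SS 𝔹) → SS 𝔹), Sbn (P0 𝔹) 𝔸 (c0 𝔹) τ →
      (∀ s, τ (fun _ => s) = θ s) → ∃ i, ∀ (u : Fin m → SS 𝔹) (b : Fin m → Fin 2),
        (∀ a, u a ∈ U (b a)) → (e ^ k) (τ u) ∈ U (b i) := by
    intro m τ hτ hs
    exact hU.acts m (fun u => (e ^ k) (τ u)) (sbn_comp (hpow k) (fun _ => hτ)) (fun s => by
      show (e ^ k) (τ (fun _ => s)) = s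
      rw [hs, hk])
  choose x hx using hU.ne
  have huniq : ∀ (τ τ' : (Fin 2 → SS 𝔹) → SS 𝔹) (i i' : Fin 2) (b : Fin 2 → Fin 2),
      Injective b → τ (fun a => x (b a)) = τ' (fun a => x (b a)) →
      (∀ (u : Fin 2 → SS 𝔹) (b : Fin 2 → Fin 2), (∀ a, u a ∈ U (b a)) →
        (e ^ k) (τ u) ∈ U (b i)) →
      (∀ (u : Fin 2 → SS 𝔹) (b : Fin 2 → Fin 2), (∀ a, u a ∈ U (b a)) →
        (e ^ k) (τ' u) ∈ U (b i')) → i = i' := by
    intro τ τ' i i' b hb he h1 h2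
    have h3 := h1 (fun a => x (b a)) b (fun a => hx _)
    have h4 := h2 (fun a => x (b a)) b (fun a => hx _)
    rw [← he] at h4
    exact hb (hU.disj _ _ _ h3 h4)
  obtain ⟨i, hi⟩ := hth 6 v6 hO.six (fun s => by
    have h1 := hO.con 0 0 (Nat.zero_le n) s
    rw [hO.zero 0] at h1
    exact h1)
  have key : ∀ (r : Fin 3) (j : ℕ), j ≤ n → ∀ (u : Fin 2 → SS 𝔹) (b : Fin 2 → Fin 2),
      (∀ a, u a ∈ U (b a)) → (e ^ k) (v r j u) ∈ U (b (lr r i)) := by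
    intro r j
    induction j with
    | zero =>
      intro _ u b hu
      rw [hO.zero]
      exact hi (fun c => u (lr r c)) (fun c => b (lr r c)) fun c => hu _
    | succ j ih =>
      intro hj
      have ih' := ih (by omega)
      obtain ⟨J, hJ⟩ := hth 2 (v r (j + 1)) (sbn_v hO r (j + 1) hj) (hO.con r (j + 1) hj)
      let κ : Fin 2 := ⟨j % 2, Nat.mod_lt _ (by norm_num)⟩
      obtain ⟨τ, h1, h2⟩ := hO.sw r j hj κ rfl (fun s => s ∈ U 0)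
      obtain ⟨i', hi'⟩ := hth 2 τ h1 (fun s => by
        by_cases hs : s ∈ U 0
        · rw [(h2 (fun _ => s)).1 hs]
          exact hO.con r (j + 1) hj s
        · rw [(h2 (fun _ => s)).2 hs]
          exact hO.con r j (by omega) s)
      have e1 : i' = J := by
        refine huniq τ (v r (j + 1)) i' J _ (inj01 κ) ?_ hi' hJ
        refine (h2 _).1 ?_
        show x (if κ = κ then (0 : Fin 2) else 1) ∈ U 0
        rw [if_pos rfl]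
        exact hx 0
      have e2 : i' = lr r i := by
        refine huniq τ (v r j) i' (lr r i) _ (inj10 κ) ?_ hi' ih'
        refine (h2 _).2 ?_
        show ¬ x (if κ = κ then (1 : Fin 2) else 0) ∈ U 0
        rw [if_pos rfl]
        intro h3
        exact absurd (hU.disj _ _ _ (hx 1) h3) (by decide)
      rw [← e2, e1]
      exact hJ
  obtain ⟨r, hr⟩ := pat_ne i (lr 0 i)
  apply hr
  show lr r i = lr 0 i
  refine huniq (v r n) (v 0 n) (lr r i) (lr 0 i) id injective_id ?_ (key r n le_rfl)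
    (key 0 n le_rfl)
  rw [hO.last r]

end srl

theorem pf_SRL : T_SRL := by
  intro V σ ρ 𝔸 𝔹 n v v6 θ hB hP hcol hO hCYF hCOR hOMG
  refine ⟨Nat.card (SS 𝔹), fun p hp hN => ?_⟩
  have : NeZero p := ⟨hp.ne_zero⟩
  have : Finite (ZMod p) := Finite.of_fintype _
  have hfin : Finite (SS 𝔹) := inferInstance
  have hZ : ¬ ∃ Z, Selects (RS (P0 𝔹) 𝔸 (c0 𝔹) p) Z := fun hZ => by
    obtain ⟨U, hU⟩ := Pool.Agent.H50.AR.exists_fac hCOR hOMG hfin hcol (perm_of hP) hZ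
    exact no_fac hP hO hU
  obtain ⟨F, hF1, hF2⟩ := hCYF _ _ _ (RS (P0 𝔹) 𝔸 (c0 𝔹) p) hZ p hp hN
  obtain ⟨w⟩ := hB.ne
  let e0 : ZMod p → SS 𝔹 := fun _ => vs 𝔹 w
  refine ⟨F e0, ?_, hF2 e0⟩
  have h1 := hF1 (Sum.inl ()) (fun i t => t i) fun i => sbn_proj i
  have h2 : (fun t : ZMod p → SS 𝔹 => F t (fun i => t i)) = F e0 := by
    funext t
    rw [fam_eq hF1 t e0]
  change Sbn (P0 𝔹) 𝔸 (c0 𝔹) (fun t : ZMod p → SS 𝔹 => F t (fun i => t i)) at h1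
  rw [h2] at h1
  exact h1

end Pool.Agent.H80.LH
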